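import Pool.Agent.Helper584_CU.Glob

/-! Inscribed squares in Jordan curves with corners and cusps: every point is locally monotone or a
cusp. -/

set_option autoImplicit false

namespace Pool.Agent.Results.MP_5a3ebe_gt.Cusps

/-- The curve is locally monotone (in the sense of Stromquist) at the parameter `s`: near `s` all
chords of the curve lie in one open half plane. -/
def LocMono (c : ℝ → ℂ) (s : ℝ) : Prop := ∃ ρ > 0, ∃ w : ℂ, ∀ x y : ℝ, |x - s| < ρ → |y - s| < ρ →
  x < y → 0 < (w * (c y - c x)).re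

/-- The curve has a cusp at the parameter `s`: after a rotation, both the branch that leaves `c s`
and the branch that arrives at `c s` are, near `c s`, graphs of Lipschitz functions with constants
at most `2 / 5` over an interval on one and the same side (the right side) of `c s`. -/
def Cusp (c : ℝ → ℂ) (s : ℝ) : Prop := ∃ ρ > 0, ∃ w : ℂ,
  (∀ x y : ℝ, s ≤ x → x < y → y < s + ρ →
    |(w * (c y - c x)).im| < 2 / 5 * (w * (c y - c x)).re) ∧
  (∀ x y : ℝ, s - ρ < x → x < y → y ≤ s →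
    |(w * (c x - c y)).im| < 2 / 5 * (w * (c x - c y)).re)

/-- The curve has one-sided tangents at the parameter `s` (in the strong sense): the directions of
short chords tend to a unit vector `u` right after `s` and to a unit vector `v` right before `s`. The
vectors `u` and `v` may be equal, form a corner (`u ≠ v`) or be opposite (`v = -u`, a cusp). -/
def OneSidedTangents (c : ℝ → ℂ) (s : ℝ) : Prop := ∃ u v : ℂ, ‖u‖ = 1 ∧ ‖v‖ = 1 ∧ ∀ ε > 0, ∃ ρ > 0,
  (∀ x y : ℝ, s ≤ x → x < y → y < s + ρ → ‖(c y - c x) / (‖c y - c x‖ : ℂ) - u‖ < ε) ∧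
  (∀ x y : ℝ, s - ρ < x → x < y → y ≤ s → ‖(c y - c x) / (‖c y - c x‖ : ℂ) - v‖ < ε)

/-- The curve is of class `C¹` up to the parameter `s` from both sides, with non-zero one-sided
derivatives at `s`. -/
def OneSidedC1 (c : ℝ → ℂ) (s : ℝ) : Prop := ∃ ρ > 0,
  (ContDiffOn ℝ 1 c (Set.Icc s (s + ρ)) ∧ derivWithin c (Set.Icc s (s + ρ)) s ≠ 0) ∧
  (ContDiffOn ℝ 1 c (Set.Icc (s - ρ) s) ∧ derivWithin c (Set.Icc (s - ρ) s) s ≠ 0)

open Pool.Agent.Helper584_CU in
lemma tangents_cases {c : ℝ → ℂ} {s : ℝ} (h : OneSidedTangents c s) :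
    LocMono c s ∨ Cusp c s := by
  obtain ⟨u, v, hu, hv, H⟩ := h
  have huu : (starRingEnd ℂ) u * u = 1 := by
    rw [mul_comm, Complex.mul_conj, Complex.normSq_eq_norm_sq, hu]; norm_num
  have hvv : (starRingEnd ℂ) v * v = 1 := by
    rw [mul_comm, Complex.mul_conj, Complex.normSq_eq_norm_sq, hv]; norm_num
  -- a chord in terms of its direction
  have dir : ∀ (z t w : ℂ) (ε : ℝ), ‖z / (‖z‖ : ℂ) - t‖ < ε → z ≠ 0 →
      ∃ e : ℂ, ‖e‖ < ε ∧ w * z = (‖z‖ : ℂ) * (w * t + w * e) := by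
    intro z t w ε h hz
    refine ⟨z / (‖z‖ : ℂ) - t, h, ?_⟩
    have : (‖z‖ : ℂ) ≠ 0 := by exact_mod_cast (norm_pos_iff.2 hz).ne'
    field_simp
    ring
  have nz : ∀ (z t : ℂ), ‖t‖ = 1 → ‖z / (‖z‖ : ℂ) - t‖ < 1 → z ≠ 0 := by
    rintro z t ht h rfl
    simp [ht] at h
  by_cases huv : u + v = 0
  · right
    have hvu : v = -u := by linear_combination huv
    obtain ⟨ρ, hρ, h1, h2⟩ := H (1 / 10) (by norm_num)
    have key : ∀ (z t : ℂ), ‖t‖ = 1 → (starRingEnd ℂ) t * t = 1 →
        ‖z / (‖z‖ : ℂ) - t‖ < 1 / 10 →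
        |((starRingEnd ℂ) t * z).im| < 2 / 5 * ((starRingEnd ℂ) t * z).re := by
      intro z t ht htt h
      have hz := nz z t ht (h.trans (by norm_num))
      obtain ⟨e, he, e1⟩ := dir z t ((starRingEnd ℂ) t) _ h hz
      have hn : 0 < ‖z‖ := norm_pos_iff.2 hz
      have hwe : ‖(starRingEnd ℂ) t * e‖ < 1 / 10 := by
        rw [norm_mul, RCLike.norm_conj, ht, one_mul]; exact he
      have k1 := (abs_le.1 (Complex.abs_re_le_norm ((starRingEnd ℂ) t * e))).1
      have k2 := Complex.abs_im_le_norm ((starRingEnd ℂ) t * e)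
      rw [e1, htt, Complex.re_ofReal_mul, Complex.im_ofReal_mul, Complex.add_re, Complex.add_im,
        Complex.one_re, Complex.one_im, zero_add, abs_mul, abs_of_pos hn]
      nlinarith
    refine ⟨ρ, hρ, (starRingEnd ℂ) u, fun x y a b d => key _ u hu huu (h1 x y a b d),
      fun x y a b d => ?_⟩
    have := key _ v hv hvv (h2 x y a b d)
    rw [hvu] at this
    rw [show (starRingEnd ℂ) u * (c x - c y) = (starRingEnd ℂ) (-u) * (c y - c x) by
      rw [map_neg]; ring]
    exact this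
  · left
    obtain ⟨w, hw⟩ : ∃ w, w = (starRingEnd ℂ) (u + v) := ⟨_, rfl⟩
    have hw0 : 0 < ‖w‖ := by
      rw [hw, RCLike.norm_conj]; exact norm_pos_iff.2 huv
    have hsq : ‖w‖ ^ 2 = 2 + 2 * ((starRingEnd ℂ) u * v).re := by
      rw [hw, RCLike.norm_conj, ← Complex.normSq_eq_norm_sq, Complex.normSq_add,
        Complex.normSq_eq_norm_sq, Complex.normSq_eq_norm_sq, hu, hv]
      have : (u * (starRingEnd ℂ) v).re = ((starRingEnd ℂ) u * v).re := by
        simp only [Complex.mul_re, Complex.conj_re, Complex.conj_im]; ring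
      rw [this]; norm_num
    have hwu : (w * u).re = ‖w‖ ^ 2 / 2 := by
      rw [hsq, hw, map_add, add_mul, huu, Complex.add_re, Complex.one_re]
      have : ((starRingEnd ℂ) v * u).re = ((starRingEnd ℂ) u * v).re := by
        simp only [Complex.mul_re, Complex.conj_re, Complex.conj_im]; ring
      rw [this]; ring
    have hwv : (w * v).re = ‖w‖ ^ 2 / 2 := by
      rw [hsq, hw, map_add, add_mul, hvv, Complex.add_re, Complex.one_re]; ring
    obtain ⟨ε, hε, ε1, ε2⟩ : ∃ ε > 0, ε ≤ ‖w‖ / 4 ∧ ε ≤ 1 :=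
      ⟨min (‖w‖ / 4) 1, by positivity, min_le_left _ _, min_le_right _ _⟩
    obtain ⟨ρ, hρ, h1, h2⟩ := H ε hε
    have key : ∀ (z t : ℂ), ‖t‖ = 1 → (w * t).re = ‖w‖ ^ 2 / 2 → ‖z / (‖z‖ : ℂ) - t‖ < ε →
        0 < (w * z).re := by
      intro z t ht htt h
      have hz := nz z t ht (h.trans_le ε2)
      obtain ⟨e, he, e1⟩ := dir z t w _ h hz
      have hn : 0 < ‖z‖ := norm_pos_iff.2 hz
      have hwe : ‖w * e‖ ≤ ‖w‖ ^ 2 / 4 := by
        rw [norm_mul]; nlinarith
      have k1 := (abs_le.1 (Complex.abs_re_le_norm (w * e))).1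
      rw [e1, Complex.re_ofReal_mul, Complex.add_re, htt]
      have : 0 < ‖w‖ ^ 2 := by positivity
      exact mul_pos hn (by linarith)
    have kr : ∀ x y, s ≤ x → x < y → y < s + ρ → 0 < (w * (c y - c x)).re := fun x y a b d =>
      key _ u hu hwu (h1 x y a b d)
    have kl : ∀ x y, s - ρ < x → x < y → y ≤ s → 0 < (w * (c y - c x)).re := fun x y a b d =>
      key _ v hv hwv (h2 x y a b d)
    refine ⟨ρ, hρ, w, fun x y hx hy hxy => ?_⟩
    have hx' := abs_lt.1 hx
    have hy' := abs_lt.1 hy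
    rcases le_or_gt s x with h | h
    · exact kr x y h hxy (by linarith)
    · rcases le_or_gt y s with h' | h'
      · exact kl x y (by linarith) hxy h'
      · have a1 := kl x s (by linarith) h le_rfl
        have a2 := kr s y le_rfl h' (by linarith)
        have : w * (c y - c x) = w * (c s - c x) + w * (c y - c s) := by ring
        rw [this, Complex.add_re]
        linarith

lemma dir_close {z u : ℂ} {r η : ℝ} (hr : 0 < r) (hu : u ≠ 0) (hη : η ≤ ‖u‖ / 2)
    (h : ‖z - (r : ℂ) * u‖ ≤ η * r) :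
    ‖z / (‖z‖ : ℂ) - u / (‖u‖ : ℂ)‖ ≤ 4 * η / ‖u‖ := by
  have hu0 : 0 < ‖u‖ := norm_pos_iff.2 hu
  have h1 : ‖(r : ℂ) * u‖ = r * ‖u‖ := by
    rw [norm_mul, Complex.norm_real, Real.norm_eq_abs, abs_of_pos hr]
  have h2 : |‖z‖ - r * ‖u‖| ≤ η * r := by
    rw [← h1]; exact (abs_norm_sub_norm_le _ _).trans h
  have h3 := abs_le.1 h2
  have hz : r * ‖u‖ / 2 ≤ ‖z‖ := by nlinarith
  have hz0 : 0 < ‖z‖ := lt_of_lt_of_le (by positivity) hz
  have c1 : (‖z‖ : ℂ) ≠ 0 := by exact_mod_cast hz0.ne'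
  have c2 : (‖u‖ : ℂ) ≠ 0 := by exact_mod_cast hu0.ne'
  have e : z / (‖z‖ : ℂ) - u / (‖u‖ : ℂ) =
      ((z - (r : ℂ) * u) + ((r * ‖u‖ - ‖z‖ : ℝ) : ℂ) * (u / (‖u‖ : ℂ))) / (‖z‖ : ℂ) := by
    push_cast
    field_simp
    ring
  have n1 : ‖u / (‖u‖ : ℂ)‖ = 1 := by
    rw [norm_div, Complex.norm_real, Real.norm_eq_abs, abs_of_pos hu0, div_self hu0.ne']
  rw [e, norm_div, Complex.norm_real, Real.norm_eq_abs, abs_of_pos hz0, div_le_div_iff₀ hz0 hu0]
  have n2 : ‖(z - (r : ℂ) * u) + ((r * ‖u‖ - ‖z‖ : ℝ) : ℂ) * (u / (‖u‖ : ℂ))‖ ≤ 2 * (η * r) := by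
    refine (norm_add_le _ _).trans ?_
    rw [norm_mul, n1, mul_one, Complex.norm_real, Real.norm_eq_abs, abs_sub_comm]
    linarith
  have hη0 : 0 ≤ η * r := (norm_nonneg _).trans h
  have hη1 : 0 ≤ η := by
    by_contra hc
    push Not at hc
    nlinarith
  nlinarith

lemma c1_tangents {c : ℝ → ℂ} {s : ℝ} (h : OneSidedC1 c s) : OneSidedTangents c s := by
  obtain ⟨ρ, hρ, ⟨d1, n1⟩, ⟨d2, n2⟩⟩ := h
  -- closeness of chords on an interval on which the derivative is close to `u`
  have main : ∀ (a b : ℝ), a < b → s ∈ Set.Icc a b → ContDiffOn ℝ 1 c (Set.Icc a b) →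
      derivWithin c (Set.Icc a b) s ≠ 0 → ∀ ε > 0, ∃ r > 0, ∀ x y : ℝ, a ≤ x → x < y → y ≤ b →
      |x - s| < r → |y - s| < r →
      ‖(c y - c x) / (‖c y - c x‖ : ℂ) -
        derivWithin c (Set.Icc a b) s / (‖derivWithin c (Set.Icc a b) s‖ : ℂ)‖ < ε := by
    intro a b hab hs hd hn ε hε
    set S := Set.Icc a b with hS
    set u := derivWithin c S s with hu
    have hu0 : 0 < ‖u‖ := norm_pos_iff.2 hn
    have hcd : ContinuousOn (derivWithin c S) S :=
      hd.continuousOn_derivWithin (uniqueDiffOn_Icc hab) le_rfl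
    obtain ⟨η, hη, η1, η2⟩ : ∃ η > 0, η ≤ ‖u‖ / 2 ∧ 4 * η / ‖u‖ < ε := by
      refine ⟨min (‖u‖ / 2) (ε * ‖u‖ / 8), by positivity, min_le_left _ _, ?_⟩
      have := min_le_right (‖u‖ / 2) (ε * ‖u‖ / 8)
      rw [div_lt_iff₀ hu0]
      nlinarith
    obtain ⟨r, hr, hr'⟩ := Metric.continuousWithinAt_iff.1 (hcd s hs) η hη
    refine ⟨r, hr, fun x y hx hxy hy hxr hyr => ?_⟩
    have hx' := abs_lt.1 hxr
    have hy' := abs_lt.1 hyr
    have hsub : Set.Icc x y ⊆ S := Set.Icc_subset_Icc hx hy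
    have hdiff : DifferentiableOn ℝ c S := hd.differentiableOn (by norm_num)
    have key : ‖(c y - (y : ℂ) * u) - (c x - (x : ℂ) * u)‖ ≤ η * ‖y - x‖ := by
      refine (convex_Icc x y).norm_image_sub_le_of_norm_hasDerivWithin_le
        (f := fun t : ℝ => c t - (t : ℂ) * u) (f' := fun t => derivWithin c S t - u)
        (fun t ht => ?_) (fun t ht => ?_) (Set.left_mem_Icc.2 hxy.le) (Set.right_mem_Icc.2 hxy.le)
      · have h1 : HasDerivWithinAt c (derivWithin c S t) (Set.Icc x y) t :=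
          ((hdiff t (hsub ht)).hasDerivWithinAt).mono hsub
        have h2 : HasDerivWithinAt (fun t : ℝ => (t : ℂ) * u) (1 * u) (Set.Icc x y) t :=
          (Complex.ofRealCLM.hasDerivAt (x := t)).hasDerivWithinAt.mul_const u
        rw [one_mul] at h2
        exact h1.sub h2
      · have := hr' (hsub ht) (by
          rw [Real.dist_eq, abs_lt]; constructor <;> linarith [ht.1, ht.2])
        rw [dist_eq_norm] at this
        exact this.le
    have e : (c y - (y : ℂ) * u) - (c x - (x : ℂ) * u) = (c y - c x) - ((y - x : ℝ) : ℂ) * u := by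
      push_cast; ring
    rw [e, Real.norm_eq_abs, abs_of_pos (by linarith : 0 < y - x)] at key
    exact (dir_close (by linarith) hn η1 key).trans_lt η2
  refine ⟨derivWithin c (Set.Icc s (s + ρ)) s / (‖derivWithin c (Set.Icc s (s + ρ)) s‖ : ℂ),
    derivWithin c (Set.Icc (s - ρ) s) s / (‖derivWithin c (Set.Icc (s - ρ) s) s‖ : ℂ),
    ?_, ?_, fun ε hε => ?_⟩
  rotate_left 2
  · obtain ⟨r1, hr1, k1⟩ := main s (s + ρ) (by linarith) ⟨le_rfl, by linarith⟩ d1 n1 ε hε
    obtain ⟨r2, hr2, k2⟩ := main (s - ρ) s (by linarith) ⟨by linarith, le_rfl⟩ d2 n2 ε hε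
    refine ⟨min (min r1 r2) ρ, by positivity, fun x y a b d => ?_, fun x y a b d => ?_⟩
    · have l1 := (min_le_left (min r1 r2) ρ).trans (min_le_left r1 r2)
      have l2 := min_le_right (min r1 r2) ρ
      exact k1 x y a b (by linarith) (by rw [abs_lt]; constructor <;> linarith)
        (by rw [abs_lt]; constructor <;> linarith)
    · have l1 := (min_le_left (min r1 r2) ρ).trans (min_le_right r1 r2)
      have l2 := min_le_right (min r1 r2) ρ
      exact k2 x y (by linarith) b d (by rw [abs_lt]; constructor <;> linarith)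
        (by rw [abs_lt]; constructor <;> linarith)
  · rw [norm_div, Complex.norm_real, norm_norm, div_self (norm_ne_zero_iff.2 n1)]
  · rw [norm_div, Complex.norm_real, norm_norm, div_self (norm_ne_zero_iff.2 n2)]

/-- Let `c` (continuous, of period `1`, injective on `[0, 1)`) parametrise a Jordan curve, and
suppose that at every parameter `s` the curve is locally monotone (in the sense of Stromquist), or
has a cusp, or has one-sided tangents in the strong sense (possibly opposite ones), or is of class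
`C¹` up to `s` from both sides with non-zero one-sided derivatives. Then the curve contains the four
vertices of a square. -/
theorem result (c : ℝ → ℂ) (hc : Continuous c) (hper : ∀ t, c (t + 1) = c t)
    (hinj : Set.InjOn c (Set.Ico 0 1))
    (hloc : ∀ s : ℝ, LocMono c s ∨ Cusp c s ∨ OneSidedTangents c s ∨ OneSidedC1 c s) :
    ∃ z w : ℂ, w ≠ 0 ∧ z ∈ Set.range c ∧ z + w ∈ Set.range c ∧
      z + w + Complex.I * w ∈ Set.range c ∧ z + Complex.I * w ∈ Set.range c := by
  refine Pool.Agent.Helper584_CU.cusp_square hc hper hinj fun s => ?_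
  have h : LocMono c s ∨ Cusp c s := by
    rcases hloc s with h | h | h | h
    · exact Or.inl h
    · exact Or.inr h
    · exact tangents_cases h
    · exact tangents_cases (c1_tangents h)
  rcases h with h | ⟨ρ, hρ, w, h2, h1⟩
  · exact Or.inl h
  · exact Or.inr ⟨ρ, hρ, w, fun x y a b d => by have := h2 x y a b d; linarith,
      fun x y a b d => by have := h1 x y a b d; linarith⟩

end Pool.Agent.Results.MP_5a3ebe_gt.Cusps
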