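import Pool.Agent.Helper665_SP.Chord2

/-! Inscribed squares in Jordan curves every point of which is locally monotone or nearly radial:
corners, cusps and slow spirals without tangents. -/

set_option autoImplicit false

namespace Pool.Agent.Results.MP_5a3ebe_gt.NearlyRadial

/-- The curve is locally monotone (in the sense of Stromquist) at the parameter `s`: near `s` all
chords of the curve lie in one open half plane. -/
def LocMono (c : ℝ → ℂ) (s : ℝ) : Prop := ∃ ρ > 0, ∃ w : ℂ, ∀ x y : ℝ, |x - s| < ρ → |y - s| < ρ →
  x < y → 0 < (w * (c y - c x)).re

/-- The curve is nearly radial at the parameter `s`: from each point `c x` of the two branches at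
`c s` it starts outwards in a direction that makes an angle of at most `arctan (1 / 100)` with the
radius from `c s` to `c x`. Precisely, the chord from `c x` to `c y` makes such an angle with that
radius for all `y` beyond `x` (as seen from `s`) within some distance `δ` of `x`, which may depend
on `x`; nothing is asked of longer chords. -/
def RadialAt (c : ℝ → ℂ) (s : ℝ) : Prop := ∃ ρ > 0, ∀ x : ℝ, x ≠ s → |x - s| < ρ →
  ∃ δ > 0, ∀ y : ℝ, |y - x| < δ → (s < x ∧ x < y) ∨ (y < x ∧ x < s) →
    |((starRingEnd ℂ) (c x - c s) * (c y - c x)).im| ≤
      1 / 100 * ((starRingEnd ℂ) (c x - c s) * (c y - c x)).re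

/-- Let `C` be a Jordan curve, parametrised by `c : ℝ → ℂ` of period `1`, that is locally monotone
or nearly radial at every parameter (the kind may change from point to point). Then `C` contains the
vertices of a square.

At a nearly radial point there is no relation between the two branches. They may form a corner with
any angle, or a cusp whose width need not be monotone, and each of them may turn around the point
infinitely often, in any direction, like the spirals `r = exp (a φ)` with `|a| ≥ 101`, without
having a tangent there. -/
theorem result (c : ℝ → ℂ) (hc : Continuous c) (hper : ∀ t, c (t + 1) = c t)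
    (hinj : Set.InjOn c (Set.Ico 0 1)) (H : ∀ s, LocMono c s ∨ RadialAt c s) :
    ∃ z w : ℂ, w ≠ 0 ∧ z ∈ Set.range c ∧ z + w ∈ Set.range c ∧
      z + w + Complex.I * w ∈ Set.range c ∧ z + Complex.I * w ∈ Set.range c := by
  by_contra hno
  have L : H763R2.An.Loop c := ⟨hc, hper⟩
  have J : H763R2.An.Inj c := Helper584_CU.inj_of_cusp L hinj
  have nosq : H763R2.Dm.NoSq (Set.range c) := hno
  refine Helper665_SP.all_tame L J nosq fun s => ?_
  rcases H s with h | h
  · exact Or.inl h
  · right
    refine Helper665_SP.Rad.sg L J nosq (Helper665_SP.NRL.rad hc J ?_)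
    obtain ⟨ρ, hρ, h⟩ := h
    refine ⟨ρ, hρ, fun x hxs hx => ?_⟩
    obtain ⟨δ, hδ, h'⟩ := h x hxs hx
    exact ⟨δ, hδ, fun y hy hxy => by linarith [h' y hy hxy]⟩

end Pool.Agent.Results.MP_5a3ebe_gt.NearlyRadial
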