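import Pool.Agent.Helper584_PC.Fin

/-! Inscribed squares in rectifiable Jordan curves that satisfy a pointwise (not uniform) chord-arc
condition, for instance whose arc-length parametrisation is everywhere differentiable. -/

set_option autoImplicit false

namespace Pool.Agent.Results.MP_5a3ebe_gt.PointwiseChordArc

/-- `c` is differentiable at `s` and the derivative has modulus `Λ`. -/
def UnitSpeed (c : ℝ → ℂ) (Λ s : ℝ) : Prop := ∃ v : ℂ, ‖v‖ = Λ ∧ HasDerivAt c v s

/-- The pointwise chord-arc condition at `s`: for all parameters `x ≤ s ≤ y` close enough to `s` the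
chord from `c x` to `c y` has length at least `(99 / 100) * Λ * (y - x)`. -/
def ChordArc (c : ℝ → ℂ) (Λ s : ℝ) : Prop := ∃ ρ > 0, ∀ x y : ℝ, s - ρ < x → x ≤ s → s ≤ y →
  y < s + ρ → 99 / 100 * (Λ * (y - x)) ≤ ‖c y - c x‖

/-- Near the parameter `s` all chords of the curve lie in one open quarter plane. -/
def Tame (c : ℝ → ℂ) (s : ℝ) : Prop := ∃ ρ > 0, ∃ w : ℂ, ∀ x y : ℝ, |x - s| < ρ → |y - s| < ρ →
  x < y → |(w * (c y - c x)).im| < (w * (c y - c x)).re

/-- The curve has one-sided tangents at the parameter `s` (in the strong sense): the directions of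
short chords tend to a unit vector `u` right after `s` and to a unit vector `v` right before `s`. The
vectors `u` and `v` may be equal, form a corner (`u ≠ v`) or be opposite (`v = -u`, a cusp). -/
def OneSidedTangents (c : ℝ → ℂ) (s : ℝ) : Prop := ∃ u v : ℂ, ‖u‖ = 1 ∧ ‖v‖ = 1 ∧ ∀ ε > 0, ∃ ρ > 0,
  (∀ x y : ℝ, s ≤ x → x < y → y < s + ρ → ‖(c y - c x) / (‖c y - c x‖ : ℂ) - u‖ < ε) ∧
  (∀ x y : ℝ, s - ρ < x → x < y → y ≤ s → ‖(c y - c x) / (‖c y - c x‖ : ℂ) - v‖ < ε)

/-- The curve has a cusp at the parameter `s`: after a rotation, both the branch that leaves `c s`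
and the branch that arrives at `c s` are, near `c s`, graphs of Lipschitz functions with constants
at most `2 / 5` over an interval on one and the same side (the right side) of `c s`. -/
def Cusp (c : ℝ → ℂ) (s : ℝ) : Prop := ∃ ρ > 0, ∃ w : ℂ,
  (∀ x y : ℝ, s ≤ x → x < y → y < s + ρ →
    |(w * (c y - c x)).im| < 2 / 5 * (w * (c y - c x)).re) ∧
  (∀ x y : ℝ, s - ρ < x → x < y → y ≤ s →
    |(w * (c x - c y)).im| < 2 / 5 * (w * (c x - c y)).re)

open Pool.Agent.Helper584_PC Pool.Agent.Helper584_CU Pool.Agent.Y535.PEG in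
lemma ost_ex {c : ℝ → ℂ} (hc : Continuous c) (hl : ∀ x y, ‖c x - c y‖ ≤ |x - y|) {s : ℝ} {u v : ℂ}
    (h : OST c s u v) : Ex c s := by
  by_cases huv : u + v = 0
  · -- a cusp
    refine Ex.of_csp hc hl ?_
    obtain ⟨hu, hv, H⟩ := h
    have hvu : v = -u := by linear_combination huv
    obtain ⟨ρ, hρ, h2, h1⟩ := H (1 / 10) (by norm_num)
    have key : ∀ (z t : ℂ), ‖t‖ = 1 → ‖z / (‖z‖ : ℂ) - t‖ < 1 / 10 →
        5 * |((starRingEnd ℂ) t * z).im| < 2 * ((starRingEnd ℂ) t * z).re := by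
      intro z t ht h
      have hz := dir_nz ht (h.trans (by norm_num))
      obtain ⟨e, he, e1⟩ := dir_eq h hz
      have hn : 0 < ‖z‖ := norm_pos_iff.2 hz
      have e2 : (starRingEnd ℂ) t * z = (‖z‖ : ℂ) * (1 + (starRingEnd ℂ) t * e) := by
        have h3 : (‖z‖ : ℂ) * (1 + (starRingEnd ℂ) t * e) =
            (starRingEnd ℂ) t * ((‖z‖ : ℂ) * (t + e)) + (‖z‖ : ℂ) * (1 - (starRingEnd ℂ) t * t) := by
          ring
        rw [h3, ← e1, conj_self ht]; ring
      have hwe : ‖(starRingEnd ℂ) t * e‖ < 1 / 10 := by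
        rw [norm_mul, RCLike.norm_conj, ht, one_mul]; exact he
      have k1 := (abs_le.1 (Complex.abs_re_le_norm ((starRingEnd ℂ) t * e))).1
      have k2 := Complex.abs_im_le_norm ((starRingEnd ℂ) t * e)
      rw [e2, Complex.re_ofReal_mul, Complex.im_ofReal_mul, Complex.add_re, Complex.add_im,
        Complex.one_re, Complex.one_im, zero_add, abs_mul, abs_of_pos hn]
      nlinarith
    refine ⟨ρ, hρ, (starRingEnd ℂ) u, fun x y a b d => key _ u hu (h2 x y a b d),
      fun x y a b d => ?_⟩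
    have := key _ v hv (h1 x y a b d)
    rw [hvu] at this
    rw [show (starRingEnd ℂ) u * (c x - c y) = (starRingEnd ℂ) (-u) * (c y - c x) by
      rw [map_neg]; ring]
    exact this
  · -- a corner
    refine ⟨h.cone_nbhd, Or.inl ?_, h.cone_or hl⟩
    obtain ⟨hu, hv, H⟩ := h
    obtain ⟨w, hw⟩ : ∃ w, w = (starRingEnd ℂ) (u + v) := ⟨_, rfl⟩
    have hw0 : 0 < ‖w‖ := by
      rw [hw, RCLike.norm_conj]; exact norm_pos_iff.2 huv
    have hsq : ‖w‖ ^ 2 = 2 + 2 * ((starRingEnd ℂ) u * v).re := by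
      rw [hw, RCLike.norm_conj, ← Complex.normSq_eq_norm_sq, Complex.normSq_add,
        Complex.normSq_eq_norm_sq, Complex.normSq_eq_norm_sq, hu, hv]
      have : (u * (starRingEnd ℂ) v).re = ((starRingEnd ℂ) u * v).re := by
        simp only [Complex.mul_re, Complex.conj_re, Complex.conj_im]; ring
      rw [this]; norm_num
    have hwu : (w * u).re = ‖w‖ ^ 2 / 2 := by
      rw [hsq, hw, map_add, add_mul, conj_self hu, Complex.add_re, Complex.one_re]
      have : ((starRingEnd ℂ) v * u).re = ((starRingEnd ℂ) u * v).re := by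
        simp only [Complex.mul_re, Complex.conj_re, Complex.conj_im]; ring
      rw [this]; ring
    have hwv : (w * v).re = ‖w‖ ^ 2 / 2 := by
      rw [hsq, hw, map_add, add_mul, conj_self hv, Complex.add_re, Complex.one_re]; ring
    obtain ⟨ε, hε, ε1, ε2⟩ : ∃ ε > 0, ε ≤ ‖w‖ / 4 ∧ ε ≤ 1 :=
      ⟨min (‖w‖ / 4) 1, by positivity, min_le_left _ _, min_le_right _ _⟩
    obtain ⟨ρ, hρ, h2, h1⟩ := H ε hε
    have key : ∀ (z t : ℂ), ‖t‖ = 1 → (w * t).re = ‖w‖ ^ 2 / 2 → ‖z / (‖z‖ : ℂ) - t‖ < ε →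
        0 < (w * z).re := by
      intro z t ht htt h
      have hz := dir_nz ht (h.trans_le ε2)
      obtain ⟨e, he, e1⟩ := dir_eq h hz
      have hn : 0 < ‖z‖ := norm_pos_iff.2 hz
      have hwe : ‖w * e‖ ≤ ‖w‖ ^ 2 / 4 := by
        rw [norm_mul]; nlinarith
      have k1 := (abs_le.1 (Complex.abs_re_le_norm (w * e))).1
      have e2 : w * z = (‖z‖ : ℂ) * (w * t + w * e) := by
        have h3 : (‖z‖ : ℂ) * (w * t + w * e) = w * ((‖z‖ : ℂ) * (t + e)) := by ring
        rw [h3, ← e1]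
      rw [e2, Complex.re_ofReal_mul, Complex.add_re, htt]
      have : 0 < ‖w‖ ^ 2 := by positivity
      exact mul_pos hn (by linarith)
    have kr : ∀ x y, s ≤ x → x < y → y < s + ρ → 0 < (w * (c y - c x)).re := fun x y a b d =>
      key _ u hu hwu (h2 x y a b d)
    have kl : ∀ x y, s - ρ < x → x < y → y ≤ s → 0 < (w * (c y - c x)).re := fun x y a b d =>
      key _ v hv hwv (h1 x y a b d)
    refine ⟨ρ, hρ, w, fun x y hx hy hxy => ?_⟩
    have hx' := abs_lt.1 hx
    have hy' := abs_lt.1 hy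
    rcases le_or_gt s x with h | h
    · exact kr x y h hxy (by linarith)
    · rcases le_or_gt y s with h' | h'
      · exact kl x y (by linarith) hxy h'
      · have a1 := kl x s (by linarith) h le_rfl
        have a2 := kr s y le_rfl h' (by linarith)
        have : w * (c y - c x) = w * (c s - c x) + w * (c y - c s) := by ring
        rw [this, Complex.add_re]
        linarith

/-- Let `c` (of period `1`, injective on `[0, 1)`) parametrise a Jordan curve, let `c` be Lipschitz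
with constant `Λ` (for instance, a constant speed parametrisation of a rectifiable curve), and suppose
that at every parameter `s` one of the following holds: `c` is differentiable at `s` with a derivative
of modulus `Λ`; `c` satisfies the pointwise chord-arc condition at `s`; near `s` all chords lie in one
open quarter plane; the curve has one-sided tangents in the strong sense at `s` (possibly opposite
ones); or it has a cusp at `s`. Then the curve contains the four vertices of a square. Nothing is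
assumed to be uniform in `s`, or continuous. -/
theorem result (c : ℝ → ℂ) (hper : ∀ t, c (t + 1) = c t) (hinj : Set.InjOn c (Set.Ico 0 1))
    (Λ : ℝ) (hlip : ∀ x y, ‖c x - c y‖ ≤ Λ * |x - y|)
    (hpt : ∀ s : ℝ, UnitSpeed c Λ s ∨ ChordArc c Λ s ∨ Tame c s ∨ OneSidedTangents c s ∨
      Cusp c s) :
    ∃ z w : ℂ, w ≠ 0 ∧ z ∈ Set.range c ∧ z + w ∈ Set.range c ∧
      z + w + Complex.I * w ∈ Set.range c ∧ z + Complex.I * w ∈ Set.range c := by
  have hΛ : 0 < Λ := by
    by_contra hcon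
    push Not at hcon
    have h1 := hlip 0 (1 / 2)
    have h2 : Λ * |(0:ℝ) - 1 / 2| ≤ 0 := mul_nonpos_of_nonpos_of_nonneg hcon (abs_nonneg _)
    have h3 : c 0 = c (1 / 2) := by
      rw [← sub_eq_zero, ← norm_le_zero_iff]; linarith
    have := hinj ⟨le_rfl, one_pos⟩ ⟨by norm_num, by norm_num⟩ h3
    norm_num at this
  have hΛc : (Λ : ℂ) ≠ 0 := by exact_mod_cast hΛ.ne'
  obtain ⟨q, hq⟩ : ∃ q : ℝ → ℂ, ∀ t, q t = c t / (Λ : ℂ) := ⟨fun t => c t / (Λ : ℂ), fun _ => rfl⟩
  have hqc : ∀ t, c t = (Λ : ℂ) * q t := fun t => by rw [hq]; field_simp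
  have hsub : ∀ x y, q y - q x = (c y - c x) / (Λ : ℂ) := fun x y => by rw [hq, hq]; ring
  have hnorm : ∀ x y, ‖q y - q x‖ = ‖c y - c x‖ / Λ := fun x y => by
    rw [hsub, norm_div, Complex.norm_real, Real.norm_eq_abs, abs_of_pos hΛ]
  have hl : ∀ x y, ‖q x - q y‖ ≤ |x - y| := fun x y => by
    rw [hnorm, div_le_iff₀ hΛ]
    have := hlip x y
    linarith
  have hqcont : Continuous q := by
    refine continuous_iff_continuousAt.2 fun a => Metric.continuousAt_iff.2 fun ε hε =>
      ⟨ε, hε, fun {x} hx => ?_⟩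
    rw [dist_eq_norm]
    rw [Real.dist_eq] at hx
    exact (hl x a).trans_lt hx
  have hdir : ∀ x y, (q y - q x) / (‖q y - q x‖ : ℂ) = (c y - c x) / (‖c y - c x‖ : ℂ) := by
    intro x y
    rw [hnorm, hsub]
    push_cast
    field_simp
  have hw : ∀ (w : ℂ) (x y : ℝ), (w * Λ) * (q y - q x) = w * (c y - c x) := fun w x y => by
    rw [hsub]; field_simp
  have L : Pool.Agent.H763R2.An.Loop q := ⟨hqcont, fun t => by rw [hq, hq, hper]⟩
  have J : Pool.Agent.H763R2.An.Inj q := Pool.Agent.Helper584_CU.inj_of_cusp L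
    fun x hx y hy hxy => hinj hx hy (by rw [hqc x, hqc y, hxy])
  by_contra hno
  have nosq : Pool.Agent.H763R2.Dm.NoSq (Set.range q) := by
    rintro ⟨z, w, hw0, ⟨t1, h1⟩, ⟨t2, h2⟩, ⟨t3, h3⟩, ⟨t4, h4⟩⟩
    refine hno ⟨Λ * z, Λ * w, mul_ne_zero hΛc hw0, ⟨t1, ?_⟩, ⟨t2, ?_⟩, ⟨t3, ?_⟩, ⟨t4, ?_⟩⟩
    · rw [hqc, h1]
    · rw [hqc, h2]; ring
    · rw [hqc, h3]; ring
    · rw [hqc, h4]; ring
  refine Pool.Agent.Helper584_PC.pc_false L J nosq hl fun s => ?_
  rcases hpt s with ⟨v, hv, hd⟩ | ⟨ρ, hρ, h⟩ | ⟨ρ, hρ, w, h⟩ | ⟨u, v, hu, hv, h⟩ | ⟨ρ, hρ, w, h2, h1⟩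
  · left
    refine Pool.Agent.Helper584_PC.Pc.of_deriv (v := v / (Λ : ℂ)) ?_ ?_
    · rw [norm_div, hv, Complex.norm_real, Real.norm_eq_abs, abs_of_pos hΛ, div_self hΛ.ne']
    · have := hd.div_const (Λ : ℂ)
      exact this.congr_of_eventuallyEq (Filter.Eventually.of_forall hq)
  · left
    refine ⟨ρ, hρ, fun x y a b d e => ?_⟩
    have := h x y a b d e
    rw [hnorm, le_div_iff₀ hΛ]
    linarith
  · right
    refine Pool.Agent.Helper584_PC.Ex.of_cone ⟨ρ, hρ, w * Λ, fun x y hx hy hxy => ?_⟩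
    rw [hw]
    exact h x y hx hy hxy
  · right
    refine ost_ex hqcont hl (u := u) (v := v) ⟨hu, hv, fun ε hε => ?_⟩
    obtain ⟨ρ, hρ, k2, k1⟩ := h ε hε
    refine ⟨ρ, hρ, fun x y a b d => ?_, fun x y a b d => ?_⟩
    · rw [hdir]; exact k2 x y a b d
    · rw [hdir]; exact k1 x y a b d
  · right
    refine Pool.Agent.Helper584_PC.Ex.of_csp hqcont hl ⟨ρ, hρ, w * Λ, fun x y a b d => ?_,
      fun x y a b d => ?_⟩
    · rw [hw]
      have := h2 x y a b d
      linarith
    · rw [hw]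
      have := h1 x y a b d
      linarith

end Pool.Agent.Results.MP_5a3ebe_gt.PointwiseChordArc
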