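import Pool.Agent.Helper665_SP.Link

/-! Inscribed squares in locally monotone Jordan curves a finite number of whose arcs are replaced by
arcs without any regularity. -/

set_option autoImplicit false

namespace Pool.Agent.Results.MP_5a3ebe_gt.WildArcs

/-- The curve is locally monotone (in the sense of Stromquist) at the parameter `s`: near `s` all
chords of the curve lie in one open half plane. -/
def LocMono (c : ℝ → ℂ) (s : ℝ) : Prop := ∃ ρ > 0, ∃ w : ℂ, ∀ x y : ℝ, |x - s| < ρ → |y - s| < ρ →
  x < y → 0 < (w * (c y - c x)).re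

/-- Near the parameter `s` all chords of the curve lie in one open quarter plane (in suitable
coordinates the curve is near `c s` the graph of a Lipschitz function with a constant at most `1`). -/
def Lip (c : ℝ → ℂ) (s : ℝ) : Prop := ∃ ρ > 0, ∃ w : ℂ, ∀ x y : ℝ, |x - s| < ρ → |y - s| < ρ →
  x < y → |(w * (c y - c x)).im| < (w * (c y - c x)).re

/-- The arc `W` from `P = c p` to `Q = c q` is turned about `P` by 90 degrees (`κ = ε = ± i`), or by 45
degrees and stretched with the factor `√2` (`κ = 1 + ε`), and it is turned about `Q` in the opposite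
sense (`κ' = - ε` or `κ' = 1 - ε`). The two arcs obtained, without `P` and without `Q`, lie in a
connected set `U` that does not meet the curve. -/
def Turnable (c : ℝ → ℂ) (p q : ℝ) : Prop := ∃ (U : Set ℂ) (ε κ κ' : ℂ),
  (ε = Complex.I ∨ ε = -Complex.I) ∧ (κ = ε ∨ κ = 1 + ε) ∧ (κ' = -ε ∨ κ' = 1 - ε) ∧
  IsPreconnected U ∧ (∀ z ∈ U, z ∉ Set.range c) ∧
  (∀ t ∈ Set.Ioc p q, c p + κ * (c t - c p) ∈ U) ∧
  (∀ t ∈ Set.Ico p q, c q + κ' * (c t - c q) ∈ U)

/-- There is a connected family `B` of chords (pairs `(x, y)` with `x < y < x + 1`) that contains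
arbitrarily short chords at `p` and at `q`, such that always one of the two further vertices of the
square to the left (`ε = i`), or always one of the two further vertices of the square to the right
(`ε = - i`) of the chord lies in a connected set `U` that does not meet the curve. -/
def Linked (c : ℝ → ℂ) (p q : ℝ) : Prop := ∃ (B : Set (ℝ × ℝ)) (U : Set ℂ) (ε : ℂ),
  IsPreconnected B ∧ (∀ v ∈ B, v.1 < v.2 ∧ v.2 < v.1 + 1) ∧ (p, p) ∈ closure B ∧
  (q, q) ∈ closure B ∧ IsPreconnected U ∧ (∀ z ∈ U, z ∉ Set.range c) ∧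
  (ε = Complex.I ∨ ε = -Complex.I) ∧
  ∀ v ∈ B, c v.1 + ε * (c v.2 - c v.1) ∈ U ∨ c v.2 + ε * (c v.2 - c v.1) ∈ U

/-- Let `C` be a Jordan curve, parametrised by `c : ℝ → ℂ` of period `1`, and let the parameters
`t i < t (i + 1)`, `t (i + n) = t i + 1`, divide `C` into `n` arcs. Suppose that each of these arcs

* is locally monotone at each of its points, the ends included,
* or it is an arbitrary arc (no regularity), except that `C` is Lipschitz at its two ends, and it is
  turnable, or linked (the set `U`, the side `ε` and the family `B` may depend on the arc).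

Then `C` contains the vertices of a square. -/
theorem result (c : ℝ → ℂ) (hc : Continuous c) (hper : ∀ t, c (t + 1) = c t)
    (hinj : Set.InjOn c (Set.Ico 0 1)) (n : ℕ) (t : ℤ → ℝ) (ht : ∀ i, t i < t (i + 1))
    (htn : ∀ i, t (i + n) = t i + 1)
    (H : ∀ i, (∀ s ∈ Set.Icc (t i) (t (i + 1)), LocMono c s) ∨
      (Lip c (t i) ∧ Lip c (t (i + 1)) ∧ t (i + 1) < t i + 1 ∧
        (Turnable c (t i) (t (i + 1)) ∨ Linked c (t i) (t (i + 1))))) :
    ∃ z w : ℂ, w ≠ 0 ∧ z ∈ Set.range c ∧ z + w ∈ Set.range c ∧
      z + w + Complex.I * w ∈ Set.range c ∧ z + Complex.I * w ∈ Set.range c := by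
  by_contra hno
  have L : H763R2.An.Loop c := ⟨hc, hper⟩
  have J : H763R2.An.Inj c := Helper584_CU.inj_of_cusp L hinj
  have nosq : H763R2.Dm.NoSq (Set.range c) := hno
  refine Helper665_SP.chain L J nosq (strictMono_int_of_lt_succ ht) htn fun i => ?_
  rcases H i with h | ⟨h1, h2, h3, h4⟩
  · exact Or.inl fun s hs => Or.inl (h s hs)
  · right
    refine ⟨h1, h2, Helper665_SP.Lnk.lk L J nosq (ht i) h3 h1 h2 ?_⟩
    rcases h4 with h4 | h4
    · exact Helper665_SP.Trn.lnk (ht i) h3 h4
    · exact h4

end Pool.Agent.Results.MP_5a3ebe_gt.WildArcs
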